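import Pool.Agent.helper78.HFN.Spec

set_option autoImplicit false

open Polynomial Module

namespace Pool.Agent.HFN

noncomputable section

theorem RSL (hRES : RES_stmt) : RSL_stmt := by
  intro Z l
  induction l with
  | nil =>
    intro κ _ f
    simp
  | cons E l ih =>
    intro κ hκ f
    have h1 : ∀ z, res κ E z ≤ 2 := fun z => le_trans (Nat.sub_le _ _) (hκ z)
    rw [List.foldl_cons, ih (res κ E) h1 f, List.prod_cons, mul_assoc, mem_JJ, mem_JJ]
    constructor
    · intro h z hz
      exact (hRES (κ z) z E (l.prod * f) (hκ z)).mpr (h z hz)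
    · intro h z hz
      exact (hRES (κ z) z E (l.prod * f) (hκ z)).mp (h z hz)

end

end Pool.Agent.HFN
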